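import Pool.Agent.Helper19.TGX.Goals
import Pool.Agent.Helper62.TG.GPQ

/-!
# TGX-IN1 (packet of helper19, MP_a41896_nt): two independent points
-/

set_option autoImplicit false

namespace Pool.Agent.Helper15.TGX.IN1

open WeierstrassCurve
open Pool.Agent.Helper29.BL Pool.Agent.Helper42.SG
open Pool.Agent.Helper60.T3 (WL zd IP)

noncomputable section

variable (k : Type) [Field k]

/-- the field of rational functions -/
abbrev F0 : Type := FractionRing (MvPolynomial (Fin 2) k)

/-- its algebraic closure -/
abbrev LL : Type := AlgebraicClosure (F0 k)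

/-- the variables -/
def Z (i : Fin 2) : LL k :=
  algebraMap (F0 k) (LL k) (algebraMap (MvPolynomial (Fin 2) k) (F0 k) (MvPolynomial.X i))

theorem indep : AlgebraicIndependent k (Z k) := by
  have h1 : AlgebraicIndependent k (MvPolynomial.X : Fin 2 → MvPolynomial (Fin 2) k) :=
    MvPolynomial.algebraicIndependent_X (Fin 2) k
  have h2 := h1.map' (f := IsScalarTower.toAlgHom k (MvPolynomial (Fin 2) k) (F0 k))
    (IsFractionRing.injective (MvPolynomial (Fin 2) k) (F0 k))
  exact h2.map' (f := IsScalarTower.toAlgHom k (F0 k) (LL k)) (algebraMap (F0 k) (LL k)).injective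

theorem alg (z : LL k) : IsAlgebraic (IntermediateField.adjoin k (Set.range (Z k))) z := by
  let E := IntermediateField.adjoin k (Set.range (Z k))
  have hpol : ∀ a : MvPolynomial (Fin 2) k,
      algebraMap (F0 k) (LL k) (algebraMap (MvPolynomial (Fin 2) k) (F0 k) a) ∈ E := by
    intro a
    induction a using MvPolynomial.induction_on with
    | C r =>
      have : algebraMap (F0 k) (LL k) (algebraMap (MvPolynomial (Fin 2) k) (F0 k)
          (MvPolynomial.C r)) = algebraMap k (LL k) r := by
        rw [IsScalarTower.algebraMap_apply k (F0 k) (LL k),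
          IsScalarTower.algebraMap_apply k (MvPolynomial (Fin 2) k) (F0 k)]
        rfl
      rw [this]
      exact E.algebraMap_mem r
    | add p q hp hq =>
      rw [map_add, map_add]
      exact E.add_mem hp hq
    | mul_X p i hp =>
      rw [map_mul, map_mul]
      exact E.mul_mem hp (IntermediateField.subset_adjoin k _ ⟨i, rfl⟩)
  have hfr : ∀ f : F0 k, algebraMap (F0 k) (LL k) f ∈ E := by
    intro f
    obtain ⟨a, b, _, rfl⟩ := IsFractionRing.div_surjective (A := MvPolynomial (Fin 2) k) f
    rw [map_div₀]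
    exact E.div_mem (hpol a) (hpol b)
  let ψ : F0 k →+* E := (algebraMap (F0 k) (LL k)).codRestrict E.toSubring hfr
  obtain ⟨p, hp0, hp⟩ := (Algebra.IsAlgebraic.isAlgebraic (R := F0 k) z)
  refine ⟨p.map ψ, (Polynomial.map_ne_zero_iff ψ.injective).2 hp0, ?_⟩
  rw [Polynomial.aeval_def, Polynomial.eval₂_map]
  exact hp

theorem t : Pool.Agent.Helper19.TGX.IN1 := by
  classical
  intro k _ _ W hW
  have : CharZero (LL k) := charZero_of_injective_algebraMap (algebraMap k (LL k)).injective
  have hWL : (WL (LL k) W).IsElliptic := by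
    unfold WL
    infer_instance
  have hpt : ∀ i, ∃ P : (WL (LL k) W).Point, xc P = Z k i := by
    intro i
    obtain ⟨s, hs⟩ := IsAlgClosed.exists_pow_nat_eq (Bf (WL (LL k) W) (Z k i)) (n := 2)
      (by norm_num)
    obtain ⟨P, -, hx, -⟩ := Pool.Agent.Helper62.TG.GPQ.point (WL (LL k) W) (Z k i) s hs
    exact ⟨P, hx⟩
  obtain ⟨P, hP⟩ := hpt 0
  obtain ⟨Q, hQ⟩ := hpt 1
  refine ⟨LL k, inferInstance, inferInstance, inferInstance, inferInstance, P, Q, ?_, ?_⟩
  · have e : ![xc P, xc Q] = Z k := by
      rw [hP, hQ]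
      funext i
      fin_cases i <;> rfl
    rw [e]
    exact indep k
  · intro z
    have e : ({xc P, xc Q} : Set (LL k)) = Set.range (Z k) := by
      rw [hP, hQ]
      ext w
      simp [Fin.exists_fin_two, eq_comm]
    rw [e]
    exact alg k z

end

end Pool.Agent.Helper15.TGX.IN1
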